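import Mathlib
import Pool.Agent.Y82.GL.Mk

/-!
# Tempered primes with Hecke eigenvalues of both signs

Let `π` be an irreducible cuspidal automorphic representation of `PGL_2` over a number field `K` which is unramified
at all finite places; for `K = ℚ` these are the spherical cusp forms on `PGL_2`, that is the Hecke-Maass cusp forms for
`SL_2(ℤ)`, and the holomorphic cusp forms of level one. Let `(α_v, α_v⁻¹)` be the Satake parameter at the place `v` and
`t_v(k) = α_v^k + α_v^{-k}`, a real number. We show: for every `ε > 0` there is a constant `A`, depending only on `K`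
and `ε`, such that for every such `π` (with entire `L(s, Sym⁴ π)`)

1. there are `v` and `k ≥ 1` with `π_v` tempered, `(N v)^k ≤ A C_4^{1+ε}` and `1/φ < |t_v(k)| < φ`, where `φ` is the
   golden ratio and `C_j` is the analytic conductor of `L(s, Sym^j π)`;
2. there are `v` and `k ≥ 1` with `π_v` tempered, `(N v)^k ≤ A (C_1² C_4)^{1+ε}` and `t_v(k) < 0`;
3. there are `v` and `k ≥ 1` with `π_v` tempered, `(N v)^k ≤ A (C_2² C_3² C_4³ C_{14}² C_{24})^{1+ε}` and `t_v(k) > 0`,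
   where `C_{ij}` is the conductor of `L(s, Sym^i π × Sym^j π)`.

So the first places at which `π` is tempered with a negative, with a positive trace are bounded polynomially in
terms of the conductor, uniformly in `π`. Known before: for fixed `π` the places at which `π` is tempered have a large
density (Ramakrishnan, Kim and Shahidi), and a uniform bound for the least tempered place, where the traces of the
powers are small (`LeastSmallTrace`); both say nothing about the sign at the small tempered places. The sign alone is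
known to be negative for a small prime power (Kowalski, Lau, Soundararajan, Wu), but not at a tempered prime.

The proof applies a uniform version of Landau's theorem (`Pool.Agent.TH949.UL`) to the entire functions
`L(s, Sym⁴ π)`, `L(s, π)² L(s, Sym⁴ π)` and
`L(s, Ad π)² L(s, Sym³ π)² L(s, Sym⁴ π)³ L(s, π × Sym⁴ π)² L(s, Ad π × Sym⁴ π)`: if there is no such place, then the
coefficients of the logarithm are nonnegative up to `X`. They are the values at `t = t_v(k)` of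

  `t⁴ - 3 t² + 1`, `t (t + 2) (t - 1)² + 1` and `t² (t² + t - 1)² - 2 t (t + 1)²`,

and these polynomials are negative only for `1/φ < |t| < φ`, for some `t` with `-2 < t < 0`, and for some `t` with
`0 < t < 2`. If `π_v` is not tempered, then `|t_v(k)| ≥ 2` for all `k`.

Notes on the data. `Unramified` contains the bound `|α_v| ≤ (N v)^{1/8}`, which is weaker than the known exponent
`7/64` (Kim and Sarnak, Blomer and Brumley). `Entire d c κ Q` says that the `L`-function of degree `d` over `K` with the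
traces `c v k` of the powers of its local parameters is entire, of polynomial growth in vertical strips and has a
functional equation with the Gamma factors `Γ_ℝ(s + κ_j)` and conductor `Q²`. For the `L`-functions above this is known
(Gelbart, Jacquet, Kim, Shahidi, and the theory of Rankin-Selberg `L`-functions of Jacquet, Piatetski-Shapiro and
Shalika) if `Sym⁴ π` is cuspidal. `Sym⁴ π` has a factor `Γ_ℝ(s)`, hence the condition `κ j = 0`. The bound
`Re κ_j > -1` is that of Jacquet and Shalika. For `K = ℚ` one has `Q = 1`.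
-/

set_option autoImplicit false

namespace Pool.Agent.Results.MP_fa98d2_nt.TemperedBothSigns

open NumberField IsDedekindDomain

/-- the finite places of `K` -/
abbrev Place (K : Type) [Field K] [NumberField K] := HeightOneSpectrum (𝓞 K)

/-- the norm of a finite place -/
noncomputable def Nm {K : Type} [Field K] [NumberField K] (v : Place K) : ℕ := Ideal.absNorm v.asIdeal

/-- the trace of the `k`-th power of the Satake parameter `(a, a⁻¹)` -/
noncomputable def tr (a : ℂ) (k : ℕ) : ℝ := (a ^ k + (a ^ k)⁻¹).re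

/-- What is used of the local components: the parameters are those of unramified unitary representations of
`PGL_2`, with the bound `|α_v| ≤ (N v)^{1/8}`. -/
structure Unramified {K : Type} [Field K] [NumberField K] (α : Place K → ℂ) : Prop where
  /-- the Satake parameters are nonzero -/
  ne_zero : ∀ v, α v ≠ 0
  /-- the representations are unitary -/
  unitary : ∀ v, (starRingEnd ℂ) (α v) = (α v)⁻¹ ∨ (starRingEnd ℂ) (α v) = α v
  /-- a bound towards the Ramanujan conjecture -/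
  bound : ∀ v, ((Nm v : ℝ) ^ (1 / 8 : ℝ))⁻¹ ≤ ‖α v‖ ∧ ‖α v‖ ≤ (Nm v : ℝ) ^ (1 / 8 : ℝ)

/-- An entire `L`-function of degree `d` over `K` with the local power sums `c v k`, with the parameters `κ` of the
Gamma factors and conductor `Q²`: `F` is the `L`-function and `Ξ` the completed one. -/
structure Entire {K : Type} [Field K] [NumberField K] (d : ℕ) (c : Place K → ℕ → ℝ)
    (κ : Fin (d * Module.finrank ℚ K) → ℂ) (Q : ℝ) : Prop where
  /-- the conductor -/
  one_le : 1 ≤ Q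
  /-- the components at infinity are unitary -/
  conj : Multiset.map (fun j => (starRingEnd ℂ) (κ j)) Finset.univ.val = Multiset.map κ Finset.univ.val
  /-- the bound of Jacquet and Shalika at infinity -/
  re : ∀ j, -1 < (κ j).re
  /-- the analytic properties -/
  entire : ∃ (F Ξ : ℂ → ℂ) (ω : ℂ), Differentiable ℂ F ∧ Differentiable ℂ Ξ ∧ ‖ω‖ = 1 ∧
    (∀ a b : ℝ, ∃ (C : ℝ) (A : ℕ), ∀ s : ℂ, a ≤ s.re → s.re ≤ b → ‖F s‖ ≤ C * (1 + |s.im|) ^ A) ∧
    (∀ s : ℂ, 1 < s.re → F s = Complex.exp (∑' x : Place K × ℕ,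
      ((c x.1 (x.2 + 1) / ((x.2 : ℝ) + 1) : ℝ) : ℂ) * (((Nm x.1 : ℕ) : ℂ) ^ (-s)) ^ (x.2 + 1))) ∧
    (∀ s : ℂ, 1 < s.re → Ξ s = F s * ((Q : ℂ) ^ s * ∏ j, Complex.Gammaℝ (s + κ j))) ∧
    ∀ s : ℂ, Ξ (1 - s) = ω * Ξ s

/-- the analytic conductor -/
noncomputable def cond {N : ℕ} (κ : Fin N → ℂ) (Q : ℝ) : ℝ := Q ^ 2 * ∏ j, (1 + ‖κ j‖)

/-- **Tempered primes with Hecke eigenvalues of both signs.** -/
theorem result (K : Type) [Field K] [NumberField K] {ε : ℝ} (hε : 0 < ε) :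
    ∃ A : ℝ, 0 < A ∧ ∀ α : Place K → ℂ, Unramified α →
      ∀ (κ₄ : Fin (5 * Module.finrank ℚ K) → ℂ) (Q₄ : ℝ),
      Entire 5 (fun v k => tr (α v) k ^ 4 - 3 * tr (α v) k ^ 2 + 1) κ₄ Q₄ → (∃ j, κ₄ j = 0) →
      (∃ (v : Place K) (k : ℕ), 1 ≤ k ∧ (Nm v : ℝ) ^ k ≤ A * cond κ₄ Q₄ ^ (1 + ε) ∧ ‖α v‖ = 1 ∧
        Real.goldenRatio⁻¹ < |tr (α v) k| ∧ |tr (α v) k| < Real.goldenRatio) ∧
      (∀ (κ₁ : Fin (2 * Module.finrank ℚ K) → ℂ) (Q₁ : ℝ), Entire 2 (fun v k => tr (α v) k) κ₁ Q₁ →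
        ∃ (v : Place K) (k : ℕ), 1 ≤ k ∧ (Nm v : ℝ) ^ k ≤ A * (cond κ₁ Q₁ ^ 2 * cond κ₄ Q₄) ^ (1 + ε) ∧
          ‖α v‖ = 1 ∧ tr (α v) k < 0) ∧
      (∀ (κ₂ : Fin (3 * Module.finrank ℚ K) → ℂ) (Q₂ : ℝ) (κ₃ : Fin (4 * Module.finrank ℚ K) → ℂ) (Q₃ : ℝ)
        (κ₁₄ : Fin (10 * Module.finrank ℚ K) → ℂ) (Q₁₄ : ℝ) (κ₂₄ : Fin (15 * Module.finrank ℚ K) → ℂ) (Q₂₄ : ℝ),
        Entire 3 (fun v k => tr (α v) k ^ 2 - 1) κ₂ Q₂ →
        Entire 4 (fun v k => tr (α v) k ^ 3 - 2 * tr (α v) k) κ₃ Q₃ →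
        Entire 10 (fun v k => tr (α v) k * (tr (α v) k ^ 4 - 3 * tr (α v) k ^ 2 + 1)) κ₁₄ Q₁₄ →
        Entire 15 (fun v k => (tr (α v) k ^ 2 - 1) * (tr (α v) k ^ 4 - 3 * tr (α v) k ^ 2 + 1)) κ₂₄ Q₂₄ →
        ∃ (v : Place K) (k : ℕ), 1 ≤ k ∧ (Nm v : ℝ) ^ k ≤
          A * (cond κ₂ Q₂ ^ 2 * cond κ₃ Q₃ ^ 2 * cond κ₄ Q₄ ^ 3 * cond κ₁₄ Q₁₄ ^ 2 * cond κ₂₄ Q₂₄) ^ (1 + ε) ∧
          ‖α v‖ = 1 ∧ 0 < tr (α v) k) := by
  have hB : (0 : ℝ) ≤ 1000 := by norm_num
  set f := Module.finrank ℚ K with hf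
  obtain ⟨A₁, hA₁0, hA₁⟩ := Pool.Agent.Y82.GL.land K (5 * f) (B := 1000) hB hε
  obtain ⟨A₂, hA₂0, hA₂⟩ := Pool.Agent.Y82.GL.land K (2 * (2 * f) + 5 * f)
    (B := (2 : ℕ) * 1000 + 1000) (by norm_num) hε
  obtain ⟨A₃, hA₃0, hA₃⟩ := Pool.Agent.Y82.GL.land K (2 * (3 * f) + 2 * (4 * f) + 3 * (5 * f) + 2 * (10 * f) + 15 * f)
    (B := (2 : ℕ) * 1000 + (2 : ℕ) * 1000 + (3 : ℕ) * 1000 + (2 : ℕ) * 1000 + 1000) (by norm_num) hε
  have good : ∀ {d : ℕ} {c : Place K → ℕ → ℝ} {κ : Fin (d * f) → ℂ} {Q : ℝ}, Entire d c κ Q →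
      (∀ v k, |c v k| ≤ 1000 * (Nm v : ℝ) ^ k) →
      Pool.Agent.Y82.GL.Good (d * f) 1000 (cond κ Q)
        (fun x : Pool.Agent.TH949.UL.PV K => c x.1 (x.2 + 1) / ((x.2 : ℝ) + 1)) (∃ j, κ j = 0) :=
    fun h hc => Pool.Agent.Y82.GL.good_of hB hc h.one_le h.conj h.re h.entire
  have pos : ∀ {N : ℕ} {B R : ℝ} {u : Pool.Agent.TH949.UL.PV K → ℝ} {Z : Prop},
      Pool.Agent.Y82.GL.Good (K := K) N B R u Z → 0 ≤ R := by
    intro N B R u Z h
    obtain ⟨κ, Q, G, -, -, hR, -⟩ := h.ex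
    rw [hR]
    have : 0 ≤ Pool.Agent.TH949.LT.PK κ := by
      have := Pool.Agent.TH949.LT.one_le_PK κ
      linarith
    positivity
  have le : ∀ {A R : ℝ}, A ≤ A₁ + A₂ + A₃ → 0 ≤ R → A * R ^ (1 + ε) ≤ (A₁ + A₂ + A₃) * R ^ (1 + ε) :=
    fun h hR => mul_le_mul_of_nonneg_right h (Real.rpow_nonneg hR _)
  refine ⟨A₁ + A₂ + A₃, by positivity, fun α hα κ₄ Q₄ h4 hz => ?_⟩
  have bd := Pool.Agent.Y82.GL.all_le (a := α) (b := α) hα.bound hα.bound
  have g4 := good h4 fun v k => (bd v k).2.2.2.1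
  refine ⟨?_, fun κ₁ Q₁ h1 => ?_, fun κ₂ Q₂ κ₃ Q₃ κ₁₄ Q₁₄ κ₂₄ Q₂₄ h2 h3 h14 h24 => ?_⟩
  · obtain ⟨⟨v, k⟩, hx, hle⟩ := hA₁ _ _ (g4.imp fun _ => hz)
    have hk : (0 : ℝ) < (k : ℝ) + 1 := by positivity
    simp only at hx hle
    rw [div_lt_iff₀ hk, zero_mul] at hx
    have h5 := Pool.Agent.Y82.GL.poly_golden hx
    refine ⟨v, k + 1, by omega, hle.trans (le (by linarith) (pos g4)), ?_, h5.1, h5.2⟩
    refine Pool.Agent.Y82.GL.temp (hα.ne_zero v) (hα.unitary v) (k := k + 1) (h5.2.trans Real.goldenRatio_lt_two)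
  · have g1 := good h1 fun v k => (bd v k).1
    have g := ((g1.pow 2).mul g4).imp (Z' := True) fun _ => Or.inr hz
    obtain ⟨⟨v, k⟩, hx, hle⟩ := hA₂ _ _ g
    have hk : (0 : ℝ) < (k : ℝ) + 1 := by positivity
    simp only at hx hle
    rw [mul_div_assoc', ← add_div, div_lt_iff₀ hk, zero_mul] at hx
    push_cast at hx
    have h5 : -2 < tr (α v) (k + 1) ∧ tr (α v) (k + 1) < 0 := Pool.Agent.Y82.GL.poly_neg hx
    have h6 : |tr (α v) (k + 1)| < 2 := abs_lt.2 ⟨h5.1, by linarith [h5.2]⟩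
    exact ⟨v, k + 1, by omega, hle.trans (le (by linarith) (pos g)),
      Pool.Agent.Y82.GL.temp (hα.ne_zero v) (hα.unitary v) (k := k + 1) h6, h5.2⟩
  · have g2 := good h2 fun v k => (bd v k).2.1
    have g3 := good h3 fun v k => (bd v k).2.2.1
    have g14 := good h14 fun v k => (bd v k).2.2.2.2.2.2.1
    have g24 := good h24 fun v k => (bd v k).2.2.2.2.2.2.2
    have g := (((((g2.pow 2).mul (g3.pow 2)).mul (g4.pow 3)).mul (g14.pow 2)).mul g24).imp (Z' := True)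
      fun _ => Or.inl (Or.inl (Or.inr ⟨by norm_num, hz⟩))
    obtain ⟨⟨v, k⟩, hx, hle⟩ := hA₃ _ _ g
    have hk : (0 : ℝ) < (k : ℝ) + 1 := by positivity
    simp only at hx hle
    simp only [mul_div_assoc', ← add_div] at hx
    rw [div_lt_iff₀ hk, zero_mul] at hx
    push_cast at hx
    have h5 : 0 < tr (α v) (k + 1) ∧ tr (α v) (k + 1) < 2 := Pool.Agent.Y82.GL.poly_pos hx
    have h6 : |tr (α v) (k + 1)| < 2 := abs_lt.2 ⟨by linarith [h5.1], h5.2⟩
    exact ⟨v, k + 1, by omega, hle.trans (le (by linarith) (pos g)),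
      Pool.Agent.Y82.GL.temp (hα.ne_zero v) (hα.unitary v) (k := k + 1) h6, h5.1⟩

end Pool.Agent.Results.MP_fa98d2_nt.TemperedBothSigns
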